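import Pool.Agent.Helper77.DS.Defs

/-! DS-10a: bookkeeping between tables and polynomials. -/

namespace Pool.Agent.Helper77.DS

open MvPolynomial

noncomputable section

section

variable {p q : ℕ} {I I' E E' : Type} [Fintype I] [DecidableEq I] [Fintype E]

theorem h62_sum_append {Ω : Type} [Fintype Ω] {β : Type*} [AddCommMonoid β]
    (F : (Fin (p + q) → Ω) → β) :
    ∑ t : Fin (p + q) → Ω, F t = ∑ s : Fin p → Ω, ∑ u : Fin q → Ω, F (Fin.append s u) := by
  rw [← (Fin.appendEquiv p q (α := Ω)).sum_comp, Fintype.sum_prod_type]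
  rfl

theorem h62_sum_append' {Ω : Type} [Fintype Ω] {β : Type*} [AddCommMonoid β]
    (i1 : Fintype (Fin (p + q) → Ω)) (i2 : Fintype (Fin p → Ω)) (i3 : Fintype (Fin q → Ω))
    (F : (Fin (p + q) → Ω) → β) :
    ∑ t : Fin (p + q) → Ω, F t = ∑ s : Fin p → Ω, ∑ u : Fin q → Ω, F (Fin.append s u) := by
  have h := h62_sum_append F
  convert h

/-- DS-10a -/
theorem pol_tact [Fintype E'] (A : I → E' → E → ℂ) (f : (Fin (p + q) → I → E) → ℂ) :
    pol (tact A f) = pact A (pol f) := by
  funext s'
  have hL : ∀ u' : Fin q → I → E', tact A f (Fin.append s' u') =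
      ∑ s : Fin p → I → E, ∑ u : Fin q → I → E, (∏ r, ∏ i, A i (s' r i) (s r i)) *
        (∏ r, ∏ i, A i (u' r i) (u r i)) * f (Fin.append s u) := by
    intro u'
    unfold tact
    rw [h62_sum_append]
    refine Finset.sum_congr rfl fun s _ => Finset.sum_congr rfl fun u _ => ?_
    rw [Fin.prod_univ_add]
    simp only [Fin.append_left, Fin.append_right]
  have hR : ∀ s : Fin p → I → E, DI.lmap (V := fun _ => E) (V' := fun _ => E') A (pol f s) =
      ∑ u : Fin q → I → E, ∑ u' : Fin q → I → E',
        C (f (Fin.append s u)) * (C (∏ r, ∏ i, A i (u' r i) (u r i)) * ∏ r, X (u' r)) := by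
    intro s
    unfold pol DI.lmap
    rw [map_sum]
    refine Finset.sum_congr rfl fun u _ => ?_
    rw [map_mul, map_prod, ← Finset.mul_sum]
    simp only [aeval_X, aeval_C, algebraMap_eq, finsum_eq_sum_of_fintype,
      finprod_eq_prod_of_fintype]
    congr 1
    rw [Finset.prod_univ_sum, Fintype.piFinset_univ]
    refine Finset.sum_congr rfl fun u' _ => ?_
    rw [Finset.prod_mul_distrib, map_prod]
  unfold pact
  simp only [hR]
  unfold pol
  simp only [hL, map_sum, Finset.sum_mul, Finset.mul_sum]
  rw [Finset.sum_comm]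
  refine Finset.sum_congr rfl fun s _ => ?_
  rw [Finset.sum_comm]
  refine Finset.sum_congr rfl fun u _ => Finset.sum_congr rfl fun u' _ => ?_
  simp only [map_mul]
  ring

/-- DS-10a -/
theorem pol_colmap [Fintype I'] [DecidableEq I'] (s : I' → I) (hs : Function.Surjective s)
    (f : (Fin (p + q) → I → E) → ℂ) : pol (colmap s f) = pcol s (pol f) := by
  classical
  funext s'
  have hiff : ∀ (s₀ : Fin p → I → E) (u : Fin q → I → E) (u' : Fin q → I' → E),
      ((fun r j => Fin.append s₀ u r (s j)) = Fin.append s' u') ↔
        ((fun r j => s₀ r (s j)) = s' ∧ (fun r j => u r (s j)) = u') := by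
    intro s₀ u u'
    constructor
    · intro h
      constructor
      · funext r j
        have := congrFun (congrFun h (Fin.castAdd q r)) j
        simpa only [Fin.append_left] using this
      · funext r j
        have := congrFun (congrFun h (Fin.natAdd p r)) j
        simpa only [Fin.append_right] using this
    · rintro ⟨h1, h2⟩
      funext r
      refine Fin.addCases (fun r => ?_) (fun r => ?_) r
      · funext j
        rw [Fin.append_left, Fin.append_left, ← h1]
      · funext j
        rw [Fin.append_right, Fin.append_right, ← h2]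
  have hL : ∀ u' : Fin q → I' → E, colmap s f (Fin.append s' u') =
      ∑ s₀ : Fin p → I → E, ∑ u : Fin q → I → E,
        if (fun r j => s₀ r (s j)) = s' then
          (if (fun r j => u r (s j)) = u' then f (Fin.append s₀ u) else 0) else 0 := by
    intro u'
    unfold colmap
    rw [h62_sum_append' _ inferInstance inferInstance]
    refine Finset.sum_congr rfl fun s₀ _ => Finset.sum_congr rfl fun u _ => ?_
    by_cases h1 : (fun r j => s₀ r (s j)) = s'
    · by_cases h2 : (fun r j => u r (s j)) = u'
      · rw [if_pos ((hiff s₀ u u').2 ⟨h1, h2⟩), if_pos h1, if_pos h2]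
      · rw [if_neg fun h => h2 ((hiff s₀ u u').1 h).2, if_pos h1, if_neg h2]
    · rw [if_neg fun h => h1 ((hiff s₀ u u').1 h).1, if_neg h1]
  have hR : ∀ s₀ : Fin p → I → E, rename (fun (α : I → E) (j : I') => α (s j)) (pol f s₀) =
      ∑ u : Fin q → I → E, C (f (Fin.append s₀ u)) *
        ∏ r, X (fun j => u r (s j)) := by
    intro s₀
    unfold pol
    rw [map_sum]
    refine Finset.sum_congr rfl fun u _ => ?_
    rw [map_mul, map_prod]
    simp only [rename_X, rename_C]
  unfold pcol
  simp only [hR]
  unfold pol
  simp only [hL, map_sum, Finset.sum_mul]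
  rw [Finset.sum_comm]
  refine Finset.sum_congr (by ext; simp) fun s₀ _ => ?_
  by_cases h1 : (fun r j => s₀ r (s j)) = s'
  · rw [if_pos h1, Finset.sum_comm]
    refine Finset.sum_congr rfl fun u _ => ?_
    rw [Finset.sum_eq_single (fun r j => u r (s j))]
    · rw [if_pos h1, if_pos rfl]
    · intro u' _ hu'
      rw [if_pos h1, if_neg fun h => hu' h.symm, map_zero, zero_mul]
    · intro h
      exact absurd (Finset.mem_univ _) h
  · rw [if_neg h1]
    refine Finset.sum_eq_zero fun u' _ => Finset.sum_eq_zero fun u _ => ?_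
    rw [if_neg h1, map_zero, zero_mul]

/-- DS-10a -/
theorem pol_addRow (w : I → E) (f : (Fin (p + q) → I → E) → ℂ) :
    pol (p := p) (q := q + 1) (addRow w f) = fun s => X w * pol f s := by
  classical
  funext s
  have h1 : ∀ (u : Fin q → I → E) (x : I → E),
      addRow (K := p + q) w f (Fin.append (n := q + 1) s (Fin.snoc (α := fun _ => I → E) u x)) =
        if x = w then f (Fin.append s u) else 0 := by
    intro u x
    have e1 : Fin.append (n := q + 1) s (Fin.snoc (α := fun _ => I → E) u x)
        (Fin.last (p + q)) = x := by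
      have : (Fin.last (p + q)) = Fin.natAdd p (Fin.last q) := rfl
      rw [this]
      exact (Fin.append_right s _ (Fin.last q)).trans (Fin.snoc_last _ _)
    have e2 : (fun r : Fin (p + q) =>
        Fin.append (n := q + 1) s (Fin.snoc (α := fun _ => I → E) u x) r.castSucc) =
          Fin.append s u := by
      funext r
      refine Fin.addCases (fun r => ?_) (fun r => ?_) r
      · rw [Fin.append_left]
        have : (Fin.castAdd q r).castSucc = Fin.castAdd (q + 1) r := rfl
        rw [this]
        exact Fin.append_left s _ r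
      · rw [Fin.append_right]
        have : (Fin.natAdd p r).castSucc = Fin.natAdd p r.castSucc := rfl
        rw [this]
        exact (Fin.append_right s _ r.castSucc).trans (Fin.snoc_castSucc _ _ _)
    unfold addRow
    rw [e1, e2]
    by_cases hx : x = w
    · rw [if_pos hx, if_pos hx]
    · rw [if_neg hx, if_neg hx]
  unfold pol
  rw [← (Fin.snocEquiv fun _ : Fin (q + 1) => I → E).sum_comp, Fintype.sum_prod_type,
    Finset.sum_eq_single w]
  · rw [Finset.mul_sum]
    refine Finset.sum_congr rfl fun u _ => ?_
    have e3 : (Fin.snocEquiv fun _ : Fin (q + 1) => I → E) (w, u) =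
      Fin.snoc (α := fun _ => I → E) u w := rfl
    rw [e3]
    have := h1 u w
    rw [if_pos rfl] at this
    rw [Fin.prod_univ_castSucc]
    simp only [Fin.snoc_castSucc, Fin.snoc_last]
    rw [this]
    ring
  · intro x _ hx
    refine Finset.sum_eq_zero fun u _ => ?_
    have e3 : (Fin.snocEquiv fun _ : Fin (q + 1) => I → E) (x, u) =
      Fin.snoc (α := fun _ => I → E) u x := rfl
    rw [e3]
    have := h1 u x
    rw [if_neg hx] at this
    rw [this, map_zero, zero_mul]
  · intro h
    exact absurd (Finset.mem_univ _) h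

end

end

end Pool.Agent.Helper77.DS
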